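import Mathlib
import Pool.Agent.H.MP_eb7acf_gt.A

set_option autoImplicit false

open Set Filter Topology
open Cardinal hiding univ
open Pool.Agent.H.MP_eb7acf_gt

namespace Pool.Agent.H.MP_1c9ee6_al

lemma ord (D H : Type) [LinearOrder D] [TopologicalSpace D] [DiscreteTopology D] [LinearOrder H]
    [TopologicalSpace H] [OrderTopology H] (h : ∀ (x : H), ∀ U ∈ 𝓝 x, ∃ l u, x ∈ Ioo l u ∧
      Ioo l u ⊆ U) : @OrderTopology (D × H) _ (inferInstanceAs (Preorder (D ×ₗ H))) := by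
  letI : Preorder (D × H) := inferInstanceAs (Preorder (D ×ₗ H))
  have hl : ∀ p q : D × H, p < q ↔ p.1 < q.1 ∨ p.1 = q.1 ∧ p.2 < q.2 := fun p q =>
    Prod.Lex.lt_iff
  refine ⟨le_antisymm (le_generateFrom ?_) fun U hU => ?_⟩
  · rintro _ ⟨a, rfl | rfl⟩
    · have : Ioi a = Prod.fst ⁻¹' Ioi a.1 ∪ Prod.fst ⁻¹' {a.1} ∩ Prod.snd ⁻¹' Ioi a.2 :=
        Set.ext fun p => (hl a p).trans (or_congr_right (and_congr_left' eq_comm))
      rw [this]
      exact ((isOpen_discrete _).preimage continuous_fst).union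
        (((isOpen_discrete _).preimage continuous_fst).inter (isOpen_Ioi.preimage continuous_snd))
    · have : Iio a = Prod.fst ⁻¹' Iio a.1 ∪ Prod.fst ⁻¹' {a.1} ∩ Prod.snd ⁻¹' Iio a.2 :=
        Set.ext fun p => hl p a
      rw [this]
      exact ((isOpen_discrete _).preimage continuous_fst).union
        (((isOpen_discrete _).preimage continuous_fst).inter (isOpen_Iio.preimage continuous_snd))
  · refine (@isOpen_iff_forall_mem_open _ (Preorder.topology (D × H)) _).2 fun p hp => ?_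
    obtain ⟨l, u, h1, h2⟩ := h p.2 _ ((hU.preimage (Continuous.prodMk_right p.1)).mem_nhds hp)
    refine ⟨Ioi (p.1, l) ∩ Iio (p.1, u), fun q hq => ?_, @IsOpen.inter _ (Preorder.topology (D × H))
      _ _ (TopologicalSpace.isOpen_generateFrom_of_mem ⟨_, Or.inl rfl⟩)
      (TopologicalSpace.isOpen_generateFrom_of_mem ⟨_, Or.inr rfl⟩),
      (hl _ _).2 (Or.inr ⟨rfl, h1.1⟩), (hl _ _).2 (Or.inr ⟨rfl, h1.2⟩)⟩
    rcases (hl _ _).1 hq.1 with h3 | h3 <;> rcases (hl _ _).1 hq.2 with h4 | h4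
    · exact absurd h3 h4.not_gt
    · exact absurd h4.1 h3.ne'
    · exact absurd h3.1 h4.ne'
    · have h5 : (p.1, q.2) ∈ U := h2 ⟨h3.2, h4.2⟩
      rwa [← h4.1] at h5

theorem pre : ∃ (G : Type) (_ : AddCommGroup G) (_ : LinearOrder G) (_ : TopologicalSpace G),
    OrderTopology G ∧ IsTopologicalAddGroup G ∧
    NoMaxOrder G ∧ NoMinOrder G ∧
    ∀ S : Set G, DiscreteTopology S → IsClosed (insert 0 S) →
      ¬ Dense (AddSubgroup.closure S : Set G) := by
  classical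
  obtain ⟨L, _, _, φ, h1, h2, h3, h4, h5⟩ := bnum
  haveI : Nonempty L := ⟨φ 0⟩
  have hb : ∀ u : ℕ → L, ∃ b, ∀ n, u n < b := fun u =>
    (h5 (range u) (mk_range_le.trans_lt (mk_nat ▸ h3))).imp fun b hb n => hb _ ⟨n, rfl⟩
  have hgt : ∀ a : L, ∃ b, a < b := fun a => (hb fun _ => a).imp fun _ h => h 0
  obtain ⟨G, H, hG, g1, g2, g4, g5, g6⟩ := alg h3 h4 h5 hb
  letI : TopologicalSpace G := Preorder.topology G
  haveI : OrderTopology G := ⟨rfl⟩
  have hB := basis hgt G hG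
  haveI : Nontrivial G := by
    obtain ⟨g, hg, -⟩ := hG (φ 0)
    exact ⟨g, 0, fun h => one_ne_zero (hg.symm.trans (by rw [h]; rfl))⟩
  refine ⟨G, inferInstance, inferInstance, inferInstance, inferInstance, inferInstance,
    inferInstance, inferInstance, fun S s1 s2 s3 => ?_⟩
  have k1 : ∀ a, ∃ b, a < b ∧ ∀ s ∈ S, (∃ c, c < a ∧ s.1 c ≠ 0) → ∀ c, b ≤ c → s.1 c = 0 := by
    intro a
    have : ∀ g : G, ∃ b, ∀ s ∈ S, (∃ c, c < a ∧ s.1 c ≠ 0) →
        (∀ c, c < b → s.1 c = g.1 c) → s = g := fun g => by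
      by_cases h : g ∈ S
      · obtain ⟨V, v1, v2⟩ := isDiscrete_iff_forall_mem_exists_isOpen.1 ⟨s1⟩ g h
        obtain ⟨b, -, hb⟩ := (hB g).mem_iff.1 (v1.mem_nhds (v2.symm.subset rfl).1)
        exact ⟨b, fun s hs _ h' => v2.subset ⟨hb h', hs⟩⟩
      · by_cases h0 : g = 0
        · exact ⟨a, fun s _ ⟨c, c1, c2⟩ h' => absurd ((h' c c1).trans (by rw [h0]; rfl)) c2⟩
        · obtain ⟨b, -, hb⟩ := (hB g).mem_iff.1 (s2.isOpen_compl.mem_nhds
            fun h' => h'.elim h0 h)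
          exact ⟨b, fun s hs _ h' => absurd (Or.inr hs) (hb h')⟩
    choose η hη using this
    choose F f1 f2 using g5 η
    obtain ⟨u, d, u0, u1, u2, u3, -⟩ := lub hb F f1 a
    refine ⟨d, u0 ▸ u3 0, fun s hs hs' c hc => ?_⟩
    obtain ⟨_, ⟨n, rfl⟩, hn⟩ := (infinite_range_of_injective
      (u1.injective.comp (add_left_injective 1))).exists_notMem_finite (g4 s s.2)
    obtain ⟨g, p1, p2⟩ := not_not.1 hn
    have h6 := f2 (u n) ⟨g, g1 _ p1⟩ (u2 n ▸ p1)
    rw [hη ⟨g, g1 _ p1⟩ s hs hs' fun c hc => p2 c (hc.trans (h6.trans_eq (u2 n).symm))]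
    exact g2 _ g p1 c ((u3 _).le.trans hc)
  choose F f1 f2 using k1
  obtain ⟨u, d, -, u1, u2, u3, u4⟩ := lub hb F f1 (φ 0)
  have k2 : ∀ g ∈ AddSubgroup.closure S, ∃ n, ∀ c, u n ≤ c → c < d → g.1 c = 0 := fun g hg => by
    induction hg using AddSubgroup.closure_induction with
    | mem s hs =>
      rcases em (∃ c, c < d ∧ s.1 c ≠ 0) with ⟨c, c1, c2⟩ | h
      · obtain ⟨n, hn⟩ := u4 c c1
        exact ⟨n + 1, fun c' h _ => f2 _ s hs ⟨c, hn, c2⟩ c' (u2 n ▸ h)⟩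
      · exact ⟨0, fun c _ hc => not_not.1 fun h' => h ⟨c, hc, h'⟩⟩
    | zero => exact ⟨0, fun _ _ _ => rfl⟩
    | add _ _ _ _ h h' =>
      obtain ⟨n, hn⟩ := h
      obtain ⟨m, hm⟩ := h'
      exact ⟨max n m, fun c c1 c2 => (congrArg₂ (· + ·)
        (hn c ((u1.monotone (le_max_left _ _)).trans c1) c2)
        (hm c ((u1.monotone (le_max_right _ _)).trans c1) c2)).trans (add_zero _)⟩
    | neg _ _ h => exact h.imp fun n hn c c1 c2 => neg_eq_zero.2 (hn c c1 c2)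
  obtain ⟨z, hz⟩ := g6 d u u1 u3 u4
  obtain ⟨g, p1, p2⟩ := (mem_closure_iff_nhds_basis (hB z)).1 (s3 _) d trivial
  obtain ⟨n, hn⟩ := k2 g p1
  obtain ⟨c, q1, q2, q3⟩ := hz (u n) (u3 n)
  exact q3 ((p2 c q2).symm.trans (hn c q1 q2))

theorem main : ∃ (G : Type) (_ : AddCommGroup G) (_ : TopologicalSpace G) (_ : LinearOrder G),
    IsTopologicalAddGroup G ∧ OrderTopology G ∧
    (∃ S : Set G, DiscreteTopology S ∧ IsClosed (S ∪ {0}) ∧ AddSubgroup.closure S = ⊤) ∧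
    ∃ K : AddSubgroup G, ∀ S : Set G, S ⊆ K → DiscreteTopology S →
      closure (S ∪ {0}) ∩ K ⊆ S ∪ {0} → ¬ (K : Set G) ⊆ closure (AddSubgroup.closure S) := by
  classical
  obtain ⟨H, _, _, _, h1, h2, _, _, h4⟩ := pre
  letI : TopologicalSpace (H →₀ ℤ) := ⊥
  haveI : DiscreteTopology (H →₀ ℤ) := ⟨rfl⟩
  obtain ⟨o⟩ : Nonempty (LinearOrder (H →₀ ℤ)) := ⟨IsWellOrder.linearOrder WellOrderingRel⟩
  have hd : ∀ T : Set ((H →₀ ℤ) × H), (∀ p ∈ T, ∀ q ∈ T, p.1 = q.1 → p = q) →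
      DiscreteTopology T ∧ IsClosed T := fun T hT => by
    refine ⟨(isDiscrete_iff_forall_mem_exists_isOpen.2 fun p hp => ⟨Prod.fst ⁻¹' {p.1},
      (isOpen_discrete _).preimage continuous_fst, Subset.antisymm
        (fun q hq => hT q hq.2 p hp hq.1) (singleton_subset_iff.2 ⟨rfl, hp⟩)⟩).to_subtype,
      isClosed_of_closure_subset fun p hp => ?_⟩
    have h5 := ((isOpen_discrete {p.1}).preimage continuous_fst).inter_closure ⟨rfl, hp⟩
    exact ((Set.Subsingleton.finite fun a ha b hb => hT a ha.2 b hb.2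
      (ha.1.trans hb.1.symm)).isClosed.closure_subset h5).2
  let S : Set ((H →₀ ℤ) × H) := range (fun h => (Finsupp.single h 1, 0)) ∪
    range fun h => (Finsupp.single h (-1), h)
  obtain ⟨s1, s2⟩ := hd S (by
    rintro _ (⟨a, rfl⟩ | ⟨a, rfl⟩) _ (⟨b, rfl⟩ | ⟨b, rfl⟩) h
    · exact Prod.ext h rfl
    · simpa using (Finsupp.single_eq_single_iff _ _ _ _).1 h
    · simpa using (Finsupp.single_eq_single_iff _ _ _ _).1 h
    · rw [Finsupp.single_left_injective (by norm_num) h])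
  refine ⟨(H →₀ ℤ) × H, inferInstance, inferInstance,
    inferInstanceAs (LinearOrder ((H →₀ ℤ) ×ₗ H)), inferInstance,
    ord _ _ fun x U hU => mem_nhds_iff_exists_Ioo_subset.1 hU,
    ⟨S, s1, s2.union isClosed_singleton, eq_top_iff.2 ?_⟩,
    (AddMonoidHom.fst _ _).ker, fun T t0 t1 t2 t3 => ?_⟩
  · rintro ⟨d, x⟩ -
    have a1 : ∀ h, ((Finsupp.single h 1, 0) : (H →₀ ℤ) × H) ∈ AddSubgroup.closure S := fun h =>
      AddSubgroup.subset_closure (Or.inl ⟨h, rfl⟩)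
    have a2 : ((0, x) : (H →₀ ℤ) × H) ∈ AddSubgroup.closure S := by
      simpa [← Finsupp.single_add] using
        add_mem (a1 x) (AddSubgroup.subset_closure (Or.inr ⟨x, rfl⟩))
    induction d using Finsupp.induction_linear with
    | zero => exact a2
    | add f g hf hg => simpa using sub_mem (add_mem hf hg) a2
    | single a n => simpa using add_mem (zsmul_mem (a1 a) n) a2
  · have hi : IsEmbedding (AddMonoidHom.inr (H →₀ ℤ) H) := isEmbedding_prodMkRight 0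
    refine h4 (AddMonoidHom.inr (H →₀ ℤ) H ⁻¹' T) (IsDiscrete.preimage ⟨t1⟩
      hi.continuous.continuousOn hi.injective).to_subtype
      (isClosed_of_closure_subset fun x hx => ?_) fun x => ?_
    · have := t2 ⟨closure_mono (by
        rintro _ ⟨y, rfl | h, rfl⟩
        · exact Or.inr rfl
        · exact Or.inl h) (mem_closure_image hi.continuous.continuousAt hx), rfl⟩
      exact this.symm.imp_left fun h => congrArg Prod.snd h
    · rw [hi.closure_eq_preimage_closure_image, ← AddSubgroup.coe_map, AddMonoidHom.map_closure,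
        image_preimage_eq_of_subset fun p hp => ⟨p.2, Prod.ext (t0 hp).symm rfl⟩]
      exact t3 rfl

end Pool.Agent.H.MP_1c9ee6_al
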